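import Pool.Agent.W14.US.Stm
import Pool.Agent.Helper366.IV.CP
import Pool.Agent.H761R2.SV.Pomp

set_option autoImplicit false
open Complex MeasureTheory
open scoped ContDiff Convolution

namespace Pool.Agent.W706.US
open Pool.Agent.W14.US

theorem locInt_inv : LocallyIntegrable (fun w : ℂ => w⁻¹) := by
  intro z
  refine ⟨Metric.ball 0 (‖z‖ + 1), Metric.isOpen_ball.mem_nhds (by simp), ?_⟩
  refine (Pool.Agent.H761R2.SV.integrableOn_norm_inv (‖z‖ + 1)).mono' ?_ ?_
  · exact (measurable_inv : Measurable (fun w : ℂ => w⁻¹)).aestronglyMeasurable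
  · filter_upwards with w
    rw [norm_inv]

theorem T_eq_conv (g : ℂ → ℂ) :
    T g = fun z => ((1 / Real.pi : ℝ) : ℂ) *
      ((fun w : ℂ => w⁻¹) ⋆[ContinuousLinearMap.mul ℝ ℂ, volume] g) z := by
  funext z
  simp only [T, convolution_def, ContinuousLinearMap.mul_apply']
  congr 1
  apply integral_congr_ae
  filter_upwards with w
  ring

theorem T_hasFDerivAt (g : ℂ → ℂ) (hg : ContDiff ℝ 1 g) (hc : HasCompactSupport g) (z : ℂ) :
    DifferentiableAt ℝ (T g) z ∧ ∀ v, fderiv ℝ (T g) z v = T (fun w => fderiv ℝ g w v) z := by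
  have h := hc.hasFDerivAt_convolution_right (ContinuousLinearMap.mul ℝ ℂ) (μ := volume)
    locInt_inv hg z
  have h2 := h.const_mul (((1 / Real.pi : ℝ) : ℂ))
  rw [← T_eq_conv] at h2
  refine ⟨h2.differentiableAt, fun v => ?_⟩
  rw [h2.fderiv, T_eq_conv]
  simp only [_root_.smul_apply, smul_eq_mul]
  congr 1
  exact convolution_precompR_apply _ locInt_inv (hc.fderiv ℝ) (hg.continuous_fderiv (by simp)) z v

theorem der : S_DER := by
  rintro g ⟨hg, hc⟩
  have hg1 : ContDiff ℝ 1 g := hg.of_le (by exact_mod_cast le_top)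
  have hD := T_hasFDerivAt g hg1 hc
  have hint : ∀ v z : ℂ, Integrable (fun w => fderiv ℝ g (z - w) v * w⁻¹) := by
    intro v z
    have h1 : Continuous (fun w => fderiv ℝ g w v) :=
      (hg1.continuous_fderiv (by simp)).clm_apply continuous_const
    have h2 : HasCompactSupport (fun w => fderiv ℝ g w v) := hc.fderiv_apply ℝ v
    have h3 := (Pool.Agent.H761R2.SV.integrable_mul_cauchy h1 h2 z).comp_sub_left z
    simpa using h3
  have hadd : ∀ (a z : ℂ), T (fun w => (fderiv ℝ g w 1 + a * fderiv ℝ g w I) / 2) z =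
      (T (fun w => fderiv ℝ g w 1) z + a * T (fun w => fderiv ℝ g w I) z) / 2 := by
    intro a z
    simp only [T]
    have : ∀ w : ℂ, (fderiv ℝ g (z - w) 1 + a * fderiv ℝ g (z - w) I) / 2 * w⁻¹ =
        (1 / 2) * (fderiv ℝ g (z - w) 1 * w⁻¹ + a * (fderiv ℝ g (z - w) I * w⁻¹)) := by
      intro w; ring
    simp only [this]
    rw [integral_const_mul, integral_add (hint 1 z) ((hint I z).const_mul a), integral_const_mul]
    ring
  have hpi : (Real.pi : ℂ) ≠ 0 := by exact_mod_cast Real.pi_ne_zero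
  have hTdb : ∀ z, T (db g) z = g z := by
    intro z
    have := Pool.Agent.Helper366.IV.cauchy_pompeiu g hg1 hc z
    simp only [T, db]
    simp only [div_eq_mul_inv] at this ⊢
    rw [this]
    push_cast
    field_simp
  refine ⟨fun z => (hD z).1, fun z => ⟨hTdb z, ?_, ?_⟩⟩
  · rw [← hTdb z]
    have h1 : T (db g) z = (T (fun w => fderiv ℝ g w 1) z + I * T (fun w => fderiv ℝ g w I) z) / 2 :=
      hadd I z
    rw [h1]
    simp only [db]
    rw [(hD z).2, (hD z).2]
  · have h1 : T (dd g) z = (T (fun w => fderiv ℝ g w 1) z + (-I) * T (fun w => fderiv ℝ g w I) z) / 2 := by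
      rw [← hadd (-I) z]
      congr 1
      funext w
      simp only [dd]; ring
    rw [h1]
    simp only [dd]
    rw [(hD z).2, (hD z).2]
    ring

end Pool.Agent.W706.US
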